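import Pool.Agent.L0h99.MN.Stm

set_option autoImplicit false

/-!
# MN, module ATT
-/

namespace Pool.Agent.L0h81.MN

open Finset
open Pool.Agent.L0h99.MN

theorem mem_UU {V : Type} [Fintype V] [DecidableEq V] {G : SimpleGraph V} {M : Finset (V × V)} {x : V} :
    x ∈ UU G M ↔ (∃ y, G.Adj x y) ∧ ∀ e ∈ M, x ∉ Bl G e := by
  simp only [UU, mem_filter, mem_univ, true_and]

theorem mem_HH {V : Type} [Fintype V] [DecidableEq V] {G : SimpleGraph V} {M : Finset (V × V)} {x : V} :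
    x ∈ HH G M ↔ x ∈ UU G M ∧ ∀ y, G.Adj x y → y ∈ UU G M := by
  simp only [HH, mem_filter]

theorem ATT : St_ATT := by
  intro V _ _ G M A _ hA
  have key : ∀ a ∈ A, ∃ e ∈ M, ∃ y ∈ Bl G e, G.Adj y a := by
    intro a ha
    obtain ⟨h1, h2⟩ := hA a ha
    rw [mem_HH, not_and] at h2
    have h3 := h2 h1
    push Not at h3
    obtain ⟨y, hay, hy⟩ := h3
    rw [mem_UU, not_and] at hy
    have h4 := hy ⟨a, hay.symm⟩
    push Not at h4
    obtain ⟨e, he, hye⟩ := h4
    exact ⟨e, he, y, hye, hay.symm⟩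
  have h1 : ∀ a : V, ∃ e : V × V, a ∈ A → e ∈ M ∧ ∃ y ∈ Bl G e, G.Adj y a := by
    intro a
    by_cases ha : a ∈ A
    · obtain ⟨e, he, hy⟩ := key a ha
      exact ⟨e, fun _ => ⟨he, hy⟩⟩
    · exact ⟨(a, a), fun h => absurd h ha⟩
  choose f hf using h1
  refine ⟨fun e => A.filter (fun a => f a = e), fun e _ => filter_subset _ _, ?_, ?_, ?_, ?_⟩
  · intro e _ x hx
    rw [mem_filter] at hx
    obtain ⟨hx1, rfl⟩ := hx
    exact (hf x hx1).2
  · intro e _ e' _ hee
    rw [disjoint_left]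
    intro x hx hx'
    rw [mem_filter] at hx hx'
    exact hee (hx.2.symm.trans hx'.2)
  · intro a ha
    exact ⟨f a, (hf a ha).1, mem_filter.2 ⟨ha, rfl⟩⟩
  · intro e he
    rw [disjoint_left]
    intro x hx hxe
    have h2 := (hA x hx).1
    rw [mem_UU] at h2
    exact h2.2 e he hxe

end Pool.Agent.L0h81.MN
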